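import Mathlib
import Pool.Agent.Work.MP_b62148_ag.QP.BasicP

/-!
Systems of linear and quadratic forms with a rational point: the kernels weighted by the dimension
of the locus of the combination. Same namespace as the folder QP, names with the suffix `R`.
-/

namespace Pool.Agent.Work.PQP

open MvPolynomial

universe u

/-- the span of a vector and of its images under the derivations over `K`: the tangent space of the
cone over the locus of the vector over `K` -/
def Th (K : Type*) [Field K] {F : Type*} [Field F] [Algebra K F] {b : ℕ} (w : Fin b → F) :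
    Submodule F (Fin b → F) :=
  Submodule.span F (insert w (Set.range fun (D : Derivation K F F) (i : Fin b) => D (w i)))

/-- a good system with base point `y`: symmetric matrices, a smooth point, kernels of dimension at
most `κ` minus the dimension of the locus of the combination, enough variables -/
structure GoodR {K : Type u} [Field K] {σ : Type} [Fintype σ] {μ : Type} [Fintype μ] {b : ℕ}
    (L : μ → σ → K) (A : Fin b → Matrix σ σ K) (y : σ → K) (κ : ℕ) : Prop where
  symm : ∀ i l l', A i l l' = A i l' l
  mem : OnX L A y
  indep : Smooth L A y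
  ker : ∀ (F : Type u) [Field F] [Algebra K F] (w : Fin b → F), w ≠ 0 →
    Module.finrank F (Ker L A w) + Module.finrank F (Th K w) ≤ κ
  num : Fintype.card μ + κ + b ^ 2 + 4 ≤ Fintype.card σ + 2 * b

section Th

variable {K : Type*} [Field K] {F : Type*} [Field F] [Algebra K F] {b : ℕ} {w : Fin b → F}

theorem mem_Th : w ∈ Th K w := Submodule.subset_span (Set.mem_insert _ _)

theorem der_mem_Th (D : Derivation K F F) : (fun i => D (w i)) ∈ Th K w :=
  Submodule.subset_span (Set.mem_insert_of_mem _ ⟨D, rfl⟩)

theorem Th_le {P : Submodule F (Fin b → F)} (h1 : w ∈ P)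
    (h2 : ∀ D : Derivation K F F, (fun i => D (w i)) ∈ P) : Th K w ≤ P := by
  refine Submodule.span_le.mpr ?_
  rintro _ (rfl | ⟨D, rfl⟩)
  · exact h1
  · exact h2 D

end Th

/-- the plan (statements; each in its own file)

[R1] (IndepR.lean)
theorem indep_derR (hg : GoodR L A y κ) {F : Type u} [Field F] [Algebra K F] (η : σ → F)
    (T : Submodule F (σ → F)) (hT1 : ∀ v ∈ T, ∀ m, ln (L m) v = 0)
    (hT2 : Fintype.card σ ≤ Module.finrank F T + Fintype.card μ + b)
    (hder : ∀ v ∈ T, ∃ D : Derivation K F F, ∀ l, D (η l) = v l) :
    Indep2 L A η (cv F y)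

[R2] (NextR.lean)
theorem good_nextR {A : Fin (b + 1) → Matrix σ σ K} (hg : GoodR L A y κ) {K' : Type u} [Field K']
    [Algebra K K'] (z : σ → K') (h1 : ∀ m, ln (L m) z = 0)
    (h2 : ∀ i, bf (A i) (cv K' y) z = 0) (h3 : AlgebraicIndependent K (fun i => bf (A i) z z))
    (h4 : Indep2 L A z (cv K' y)) :
    GoodR (nextL L A y (fun i => bf (A i) z z)) (nextA A (fun i => bf (A i) z z)) z (κ + b - 1)

[R3] (InitR.lean)
smooth complete intersection of `a` quadrics in at least `a ^ 2 - a + 4` variables: `GoodR` with
`κ = a`; all nonzero combinations of rank at least `a ^ 2 - a + 4`: `GoodR` -/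
theorem planR : True := trivial

end Pool.Agent.Work.PQP
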