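import Mathlib
import Pool.Agent.Work.MP_b62148_ag.QP.InitP
import Pool.Agent.Work.MP_b62148_ag.QP.RankP
import Pool.Agent.Work.MP_b62148_ag.QR.DefsR

/-!
Smooth complete intersections of quadrics with a rational point, and quadratic forms of large rank
with a smooth rational point, are good systems (kernels weighted by the locus).
-/

namespace Pool.Agent.Work.PQP

open MvPolynomial Pool.Agent.Work.PDC

universe u

section Iso

variable {K : Type*} [Field K] {σ : Type*} [Fintype σ] {a : ℕ} {A : Fin a → Matrix σ σ K}
  {F : Type*} [Field F] [Algebra K F]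

/-- the forms of the tangent space of the locus vanish on the kernel -/
theorem iso_Th (hA : ∀ i l l', A i l l' = A i l' l) (w : Fin a → F) (x x' : σ → F)
    (hx : ∀ l, ∑ i, w i * mv (A i) x l = 0) (hx' : ∀ l, ∑ i, w i * mv (A i) x' l = 0)
    (θ : Fin a → F) (hθ : θ ∈ Th K w) : ∑ i, θ i * bf (A i) x x' = 0 := by
  have hw : ∀ v u : σ → F, (∀ l, ∑ i, w i * mv (A i) u l = 0) → ∑ i, w i * bf (A i) v u = 0 := by
    intro v u hu
    have h1 : ∑ i, w i * bf (A i) v u = ∑ l, v l * ∑ i, w i * mv (A i) u l := by
      simp only [bf, Finset.mul_sum]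
      rw [Finset.sum_comm]
      exact Finset.sum_congr rfl fun l _ => Finset.sum_congr rfl fun i _ => by ring
    rw [h1]
    exact Finset.sum_eq_zero fun l _ => by rw [hu, mul_zero]
  let f : (Fin a → F) →ₗ[F] F :=
    { toFun := fun c => ∑ i, c i * bf (A i) x x'
      map_add' := by
        intro c d
        simp only [Pi.add_apply, add_mul, Finset.sum_add_distrib]
      map_smul' := by
        intro c d
        simp only [Pi.smul_apply, smul_eq_mul, RingHom.id_apply, Finset.mul_sum]
        exact Finset.sum_congr rfl fun i _ => by ring }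
  have hle : Th K w ≤ LinearMap.ker f := by
    refine Th_le ?_ ?_
    · rw [LinearMap.mem_ker]
      exact hw x x' hx'
    · intro D
      rw [LinearMap.mem_ker]
      show ∑ i, D (w i) * bf (A i) x x' = 0
      have h1 : ∀ l, ∑ i, D (w i) * mv (A i) x' l = -∑ i, w i * mv (A i) (fun l' => D (x' l')) l := by
        intro l
        have h2 := congrArg D (hx' l)
        rw [map_sum, map_zero] at h2
        have h3 : ∑ i, D (w i * mv (A i) x' l) = ∑ i, w i * mv (A i) (fun l' => D (x' l')) l +
            ∑ i, D (w i) * mv (A i) x' l := by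
          rw [← Finset.sum_add_distrib]
          refine Finset.sum_congr rfl fun i _ => ?_
          rw [Derivation.leibniz, der_mv, smul_eq_mul, smul_eq_mul]
          ring
        rw [h3] at h2
        exact eq_neg_of_add_eq_zero_right h2
      have h4 : ∑ i, D (w i) * bf (A i) x x' = ∑ l, x l * ∑ i, D (w i) * mv (A i) x' l := by
        simp only [bf, Finset.mul_sum]
        rw [Finset.sum_comm]
        exact Finset.sum_congr rfl fun l _ => Finset.sum_congr rfl fun i _ => by ring
      have h5 : ∑ i, w i * bf (A i) x (fun l' => D (x' l')) =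
          ∑ l, x l * ∑ i, w i * mv (A i) (fun l' => D (x' l')) l := by
        simp only [bf, Finset.mul_sum]
        rw [Finset.sum_comm]
        exact Finset.sum_congr rfl fun l _ => Finset.sum_congr rfl fun i _ => by ring
      have h6 : ∑ i, w i * bf (A i) x (fun l' => D (x' l')) = 0 := by
        rw [← hw (fun l' => D (x' l')) x hx]
        exact Finset.sum_congr rfl fun i _ => by rw [bf_comm (hA i)]
      rw [h4]
      simp only [h1, mul_neg, Finset.sum_neg_distrib]
      rw [← h5, h6, neg_zero]
  exact LinearMap.mem_ker.mp (hle hθ)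

end Iso

/-- the dimension of the kernel and of the tangent space of the locus, smooth case -/
theorem ker_Th_le {K : Type u} [Field K] [CharZero K] {σ : Type} [Fintype σ] {a : ℕ}
    (G : Fin a → MvPolynomial σ K) (hG : ∀ i, (G i).IsHomogeneous 2)
    (hs : Pool.Agent.Work.PDC.SmoothCI G) (F : Type u) [Field F] [Algebra K F] (w : Fin a → F)
    (hw : w ≠ 0) :
    Module.finrank F (Ker (fun m : Fin 0 => (m.elim0 : σ → K)) (fun i => gm (G i)) w) +
      Module.finrank F (Th K w) ≤ a := by
  classical
  by_contra hcon
  push Not at hcon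
  set V := Ker (fun m : Fin 0 => (m.elim0 : σ → K)) (fun i => gm (G i)) w with hV
  let B := Module.finBasis F V
  let e : Fin (Module.finrank F V) → σ → F := fun j => (B j : σ → F)
  have he : LinearIndependent F e :=
    B.linearIndependent.map' V.subtype (Submodule.ker_subtype V)
  have hker : ∀ j l, ∑ i, w i * mv (gm (G i)) (e j) l = 0 := by
    intro j l
    have h2 := (B j).2.2
    have h3 : Set.range (fun m : Fin 0 => cv F (m.elim0 : σ → K)) = ∅ := Set.range_eq_empty _
    rw [h3, Submodule.span_empty, Submodule.mem_bot] at h2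
    have h4 := congrFun h2 l
    simp only [Finset.sum_apply, Pi.smul_apply, smul_eq_mul, Pi.zero_apply] at h4
    exact h4
  obtain ⟨S, hS⟩ := Submodule.exists_isCompl (Th K w)
  have hdim := Submodule.finrank_add_eq_of_isCompl hS
  rw [Module.finrank_fintype_fun_eq_card, Fintype.card_fin] at hdim
  let BS := Module.finBasis F S
  obtain ⟨E, _, _, _, _, _⟩ : ∃ (E : Type u) (_ : Field E) (_ : Algebra K E) (_ : Algebra F E)
      (_ : IsScalarTower K F E), IsAlgClosed E :=
    ⟨AlgebraicClosure F, inferInstance, inferInstance, inferInstance, inferInstance,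
      inferInstance⟩
  -- the universal vector
  let U : σ → MvPolynomial (Fin (Module.finrank F V)) E :=
    fun l => ∑ j, X j * C (algebraMap F E (e j l))
  have hU : ∀ (t : Fin (Module.finrank F V) → E) (H : MvPolynomial σ K),
      eval t (aeval U H) = aeval (fun l => ∑ j, t j * algebraMap F E (e j l)) H := by
    intro t H
    have h1 : eval t (aeval U H) = eval₂ ((eval t).comp (algebraMap K _)) (fun l => eval t (U l)) H := by
      rw [aeval_def, eval₂_comp_left]
      rfl
    rw [h1, aeval_def]
    congr 1
    · refine RingHom.ext fun c => ?_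
      rw [RingHom.comp_apply, IsScalarTower.algebraMap_apply K E (MvPolynomial _ E), algebraMap_eq,
        eval_C]
    · funext l
      simp only [U, map_sum, map_mul, eval_X, eval_C]
  have hcard : Fintype.card (Fin (Module.finrank F S)) < Module.finrank F V := by
    rw [Fintype.card_fin]
    omega
  obtain ⟨t, ht0, ht⟩ := exists_zero_fin (E := E) hcard
    (fun s => ∑ i, C (algebraMap F E ((BS s : Fin a → F) i)) * aeval U (G i)) (by
    intro s
    rw [map_sum]
    refine Finset.sum_eq_zero fun i _ => ?_
    rw [map_mul, hU]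
    have h1 : (fun l => ∑ j, (0 : Fin (Module.finrank F V) → E) j * algebraMap F E (e j l)) =
        (0 : σ → E) := by
      funext l
      simp
    have h2 : aeval (0 : σ → E) (G i) = 0 := by
      rw [← bf_gm (G i) (hG i)]
      simp [bf]
    rw [h1, h2, mul_zero])
  let x : σ → E := fun l => ∑ j, t j * algebraMap F E (e j l)
  have hx0 : x ≠ 0 := by
    intro h
    apply ht0
    exact lin_ext e he t (fun l => congrFun h l)
  have hmvx : ∀ i l, mv (gm (G i)) x l = ∑ j, t j * algebraMap F E (mv (gm (G i)) (e j) l) := by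
    intro i l
    simp only [mv, x, map_sum, map_mul, Finset.mul_sum]
    rw [Finset.sum_comm]
    refine Finset.sum_congr rfl fun j _ => Finset.sum_congr rfl fun l' _ => ?_
    rw [← IsScalarTower.algebraMap_apply K F E]
    ring
  have hbfx : ∀ i, bf (gm (G i)) x x =
      ∑ j, ∑ j', t j * t j' * algebraMap F E (bf (gm (G i)) (e j) (e j')) := by
    intro i
    have h1 : bf (gm (G i)) x x = ∑ l, ∑ j, ∑ j', (t j * algebraMap F E (e j l)) *
        (t j' * algebraMap F E (mv (gm (G i)) (e j') l)) := by
      unfold bf
      refine Finset.sum_congr rfl fun l _ => ?_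
      rw [hmvx, Finset.sum_mul_sum]
    rw [h1, Finset.sum_comm]
    refine Finset.sum_congr rfl fun j _ => ?_
    rw [Finset.sum_comm]
    refine Finset.sum_congr rfl fun j' _ => ?_
    rw [bf, map_sum, Finset.mul_sum]
    refine Finset.sum_congr rfl fun l _ => ?_
    rw [map_mul]
    ring
  have hkerx : ∀ l, ∑ i, algebraMap F E (w i) * mv (gm (G i)) x l = 0 := by
    intro l
    simp only [hmvx, Finset.mul_sum]
    rw [Finset.sum_comm]
    refine Finset.sum_eq_zero fun j _ => ?_
    have h5 : ∑ i, algebraMap F E (w i) * (t j * algebraMap F E (mv (gm (G i)) (e j) l)) =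
        t j * algebraMap F E (∑ i, w i * mv (gm (G i)) (e j) l) := by
      rw [map_sum, Finset.mul_sum]
      refine Finset.sum_congr rfl fun i _ => ?_
      rw [map_mul]
      ring
    rw [h5, hker, map_zero, mul_zero]
  -- all the quadratic forms vanish at the vector
  let φ : (Fin a → F) →ₗ[F] E :=
    { toFun := fun c => ∑ i, algebraMap F E (c i) * aeval x (G i)
      map_add' := by
        intro c d
        simp only [Pi.add_apply, map_add, add_mul, Finset.sum_add_distrib]
      map_smul' := by
        intro c d
        simp only [Pi.smul_apply, smul_eq_mul, map_mul, RingHom.id_apply, Algebra.smul_def,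
          Finset.mul_sum, mul_assoc] }
  have hφ1 : Th K w ≤ LinearMap.ker φ := by
    intro θ hθ
    rw [LinearMap.mem_ker]
    show ∑ i, algebraMap F E (θ i) * aeval x (G i) = 0
    have h1 : ∑ i, algebraMap F E (θ i) * aeval x (G i) =
        ∑ j, ∑ j', t j * t j' * algebraMap F E (∑ i, θ i * bf (gm (G i)) (e j) (e j')) := by
      have h2 : ∀ i, aeval x (G i) = bf (gm (G i)) x x := fun i => (bf_gm (G i) (hG i) x).symm
      simp only [h2, hbfx, map_sum, map_mul, Finset.mul_sum]
      rw [Finset.sum_comm]
      refine Finset.sum_congr rfl fun j _ => ?_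
      rw [Finset.sum_comm]
      refine Finset.sum_congr rfl fun j' _ => Finset.sum_congr rfl fun i _ => ?_
      ring
    rw [h1]
    refine Finset.sum_eq_zero fun j _ => Finset.sum_eq_zero fun j' _ => ?_
    rw [iso_Th (fun i => gm_symm (G i)) w (e j) (e j') (hker j) (hker j') θ hθ, map_zero, mul_zero]
  have hφ2 : S ≤ LinearMap.ker φ := by
    have h1 : S = Submodule.span F (Set.range fun s => (BS s : Fin a → F)) := by
      have h2 := BS.span_eq
      have h3 := congrArg (Submodule.map S.subtype) h2
      rw [Submodule.map_span, Submodule.map_top, Submodule.range_subtype, ← Set.range_comp] at h3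
      exact h3.symm
    rw [h1, Submodule.span_le]
    rintro _ ⟨s, rfl⟩
    show (BS s : Fin a → F) ∈ LinearMap.ker φ
    rw [LinearMap.mem_ker]
    show ∑ i, algebraMap F E ((BS s : Fin a → F) i) * aeval x (G i) = 0
    rw [← ht s, map_sum]
    refine Finset.sum_congr rfl fun i _ => ?_
    rw [map_mul, eval_C, hU]
  have hφ : LinearMap.ker φ = ⊤ := by
    rw [eq_top_iff, ← hS.sup_eq_top]
    exact sup_le hφ1 hφ2
  have hx2 : ∀ i, aeval x (G i) = 0 := by
    intro i
    have h1 : (Pi.single i 1 : Fin a → F) ∈ LinearMap.ker φ := by rw [hφ]; trivial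
    rw [LinearMap.mem_ker] at h1
    have h2 : φ (Pi.single i 1) =
        ∑ i', algebraMap F E ((Pi.single i 1 : Fin a → F) i') * aeval x (G i') := rfl
    rw [h2, Finset.sum_eq_single i] at h1
    · simpa using h1
    · intro i' _ hi'
      rw [Pi.single_eq_of_ne hi', map_zero, zero_mul]
    · simp
  have h6 := smooth_ext G hs x hx0 hx2 (fun i => algebraMap F E (w i)) (by
    intro v
    have h4 : ∑ i, algebraMap F E (w i) * dd (G i) x v =
        2 * ∑ l, (∑ i, algebraMap F E (w i) * mv (gm (G i)) x l) * v l := by
      simp only [Finset.sum_mul, Finset.mul_sum]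
      rw [Finset.sum_comm]
      refine Finset.sum_congr rfl fun i _ => ?_
      rw [dd_gm _ (hG i), Finset.mul_sum, Finset.mul_sum]
      exact Finset.sum_congr rfl fun l _ => by ring
    rw [h4]
    simp only [hkerx, zero_mul, Finset.sum_const_zero, mul_zero])
  apply hw
  funext i
  have h7 := congrFun h6 i
  exact (map_eq_zero _).mp h7

/-- independent gradients in terms of the matrices -/
theorem smooth_of_grad {K : Type u} [Field K] [CharZero K] {σ : Type} [Fintype σ] {a : ℕ}
    (G : Fin a → MvPolynomial σ K) (hG : ∀ i, (G i).IsHomogeneous 2) {F : Type u} [Field F]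
    [Algebra K F] (x : σ → F)
    (h : ∀ c : Fin a → F, (∀ l, ∑ i, c i * aeval x (pderiv l (G i)) = 0) → c = 0) :
    Smooth (fun m : Fin 0 => (m.elim0 : σ → K)) (fun i => gm (G i)) x := by
  unfold Smooth
  rw [Fintype.linearIndependent_iff]
  intro g hg
  rw [Fintype.sum_sum_type, Finset.univ_eq_empty, Finset.sum_empty, zero_add] at hg
  have h1 := h (fun i => g (Sum.inr i)) (by
    intro l
    have h3 := congrFun hg l
    simp only [Sum.elim_inr, Finset.sum_apply, Pi.smul_apply, smul_eq_mul, Pi.zero_apply] at h3
    have h4 : ∑ i, g (Sum.inr i) * aeval x (pderiv l (G i)) =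
        2 * ∑ i, g (Sum.inr i) * mv (gm (G i)) x l := by
      rw [Finset.mul_sum]
      refine Finset.sum_congr rfl fun i _ => ?_
      rw [grad_gm _ (hG i)]
      ring
    rw [h4, h3, mul_zero])
  rintro (m | i)
  · exact m.elim0
  · exact congrFun h1 i

/-- a smooth complete intersection of quadrics with a rational point is a good system -/
theorem goodR_of_smooth {K : Type u} [Field K] [CharZero K] {σ : Type} [Fintype σ] {a : ℕ}
    (G : Fin a → MvPolynomial σ K) (hG : ∀ i, (G i).IsHomogeneous 2)
    (hs : Pool.Agent.Work.PDC.SmoothCI G) (hn : a ^ 2 + 4 ≤ Fintype.card σ + a)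
    (y : σ → K) (hy0 : y ≠ 0) (hy : ∀ i, aeval y (G i) = 0) :
    GoodR (fun m : Fin 0 => m.elim0) (fun i => gm (G i)) y a := by
  refine ⟨fun i l l' => gm_symm (G i) l l', ⟨fun m => m.elim0, fun i => ?_⟩, ?_,
    fun F _ _ w hw => ker_Th_le G hG hs F w hw, ?_⟩
  · rw [bf_gm _ (hG i)]; exact hy i
  · exact smooth_of_grad G hG y fun c hc =>
      smooth_ext G hs y hy0 hy c (dd_of_grad G y c hc)
  · simp only [Fintype.card_fin]
    omega

/-- quadratic forms all of whose non zero combinations have large rank, with a smooth rational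
point, are a good system -/
theorem goodR_of_rank {K : Type u} [Field K] [CharZero K] {σ : Type} [Fintype σ] {a : ℕ}
    (G : Fin a → MvPolynomial σ K) (hG : ∀ i, (G i).IsHomogeneous 2) (ha : 1 ≤ a)
    (hr : ∀ w : Fin a → AlgebraicClosure K, w ≠ 0 → a ^ 2 + 4 ≤ a + (Matrix.of fun l l' : σ =>
      ∑ i, w i * aeval (0 : σ → AlgebraicClosure K) (pderiv l (pderiv l' (G i)))).rank)
    (y : σ → K) (hy : ∀ i, aeval y (G i) = 0)
    (hsm : ∀ c : Fin a → K, (∀ l, ∑ i, c i * aeval y (pderiv l (G i)) = 0) → c = 0) :
    GoodR (fun m : Fin 0 => m.elim0) (fun i => gm (G i)) y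
      (Fintype.card σ + a - (a ^ 2 + 4) + a) := by
  have h1 := good_of_rank G hG ha hr y hy hsm
  have hle : a ^ 2 + 4 ≤ Fintype.card σ + a := by
    have h2 := h1.num
    rw [Fintype.card_fin] at h2
    omega
  refine ⟨h1.symm, h1.mem, h1.indep, fun F _ _ w hw => ?_, ?_⟩
  · have h2 := h1.ker F w hw
    have h3 : Module.finrank F (Th K w) ≤ a := by
      have h4 := Submodule.finrank_le (Th K w)
      rwa [Module.finrank_fintype_fun_eq_card, Fintype.card_fin] at h4
    exact Nat.add_le_add h2 h3
  · simp only [Fintype.card_fin]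
    omega

end Pool.Agent.Work.PQP
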