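import Mathlib

/-!
Extension of derivations along extensions of fields of characteristic zero.
-/


namespace Pool.Agent.Work.PQP

universe u

open TensorProduct KaehlerDifferential

/-- extensions of fields of characteristic zero are formally smooth -/
theorem formallySmooth_field (K' F : Type u) [Field K'] [CharZero K'] [Field F] [Algebra K' F] :
    Algebra.FormallySmooth K' F := by
  obtain ⟨s, hs⟩ := exists_isTranscendenceBasis K' F
  have h1 : Algebra.IsAlgebraic (IntermediateField.adjoin K' (Set.range ((↑) : s → F))) F :=
    hs.isAlgebraic_field
  have h2 : CharZero (IntermediateField.adjoin K' (Set.range ((↑) : s → F))) :=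
    charZero_of_injective_algebraMap (algebraMap K' _).injective
  exact Algebra.FormallySmooth.of_algebraicIndependent_of_isSeparable hs.1

/-- extension of a derivation -/
theorem exists_der_ext {K K' F : Type u} [Field K] [CharZero K] [Field K'] [Algebra K K'] [Field F]
    [Algebra K F] [Algebra K' F] [IsScalarTower K K' F] (d : Derivation K K' F) :
    ∃ D : Derivation K F F, ∀ s, D (algebraMap K' F s) = d s := by
  have hch : CharZero K' := charZero_of_injective_algebraMap (algebraMap K K').injective
  have hfs := formallySmooth_field K' F
  have hinj : Function.Injective (mapBaseChange K K' F) := by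
    rw [injective_iff_map_eq_zero]
    intro x hx
    obtain ⟨y, rfl⟩ := (Algebra.H1Cotangent.exact_δ_mapBaseChange K K' F x).mp hx
    rw [Subsingleton.elim y 0, map_zero]
  obtain ⟨r, hr⟩ := LinearMap.exists_leftInverse_of_injective (mapBaseChange K K' F)
    (LinearMap.ker_eq_bot.mpr hinj)
  refine ⟨((d.liftKaehlerDifferential.liftBaseChange F).comp r).compDer (KaehlerDifferential.D K F),
    fun s => ?_⟩
  have h1 : KaehlerDifferential.D K F (algebraMap K' F s) =
      mapBaseChange K K' F (1 ⊗ₜ KaehlerDifferential.D K K' s) := by
    simp
  show (d.liftKaehlerDifferential.liftBaseChange F) (r (KaehlerDifferential.D K F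
    (algebraMap K' F s))) = d s
  rw [h1]
  have h2 : r (mapBaseChange K K' F (1 ⊗ₜ KaehlerDifferential.D K K' s)) =
      1 ⊗ₜ KaehlerDifferential.D K K' s := LinearMap.congr_fun hr _
  rw [h2]
  simp

end Pool.Agent.Work.PQP
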