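import Mathlib
import Pool.Agent.Work.MP_b62148_ag.QP.NextP
import Pool.Agent.Work.MP_b62148_ag.QR.DefsR
import Pool.Agent.Work.MP_b62148_ag.QR.DerR

/-!
Systems of linear and quadratic forms with a rational point: the next system (sharper count).
-/

namespace Pool.Agent.Work.PQP

open MvPolynomial

universe u

section Th

variable {K : Type*} [Field K] {K' : Type*} [Field K'] [Algebra K K'] {F : Type*} [Field F]
  [Algebra K F] [Algebra K' F] [IsScalarTower K K' F] {b : ℕ}

/-- the coefficients of a combination of the new forms in terms of the old ones -/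
noncomputable def psi (F : Type*) [Field F] [Algebra K' F] (f : Fin (b + 1) → K') :
    (Fin b → F) →ₗ[F] (Fin (b + 1) → F) where
  toFun w := Fin.cons (-∑ j : Fin b, w j * algebraMap K' F (f j.succ))
    (fun j => w j * algebraMap K' F (f 0))
  map_add' := by
    intro w w'
    funext i
    refine Fin.cases ?_ (fun j => ?_) i
    · simp only [Fin.cons_zero, Pi.add_apply, add_mul, Finset.sum_add_distrib]
      ring
    · simp only [Fin.cons_succ, Pi.add_apply, add_mul]
  map_smul' := by
    intro c w
    funext i
    refine Fin.cases ?_ (fun j => ?_) i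
    · simp only [Fin.cons_zero, Pi.smul_apply, smul_eq_mul, RingHom.id_apply, mul_neg,
        Finset.mul_sum]
      congr 1
      exact Finset.sum_congr rfl fun j _ => by ring
    · simp only [Fin.cons_succ, Pi.smul_apply, smul_eq_mul, RingHom.id_apply]
      ring

theorem psi_zero (f : Fin (b + 1) → K') (w : Fin b → F) :
    psi F f w 0 = -∑ j : Fin b, w j * algebraMap K' F (f j.succ) := rfl

theorem psi_succ (f : Fin (b + 1) → K') (w : Fin b → F) (j : Fin b) :
    psi F f w j.succ = w j * algebraMap K' F (f 0) := rfl

theorem psi_inj (f : Fin (b + 1) → K') (hf : f 0 ≠ 0) : Function.Injective (psi F f) := by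
  rw [injective_iff_map_eq_zero]
  intro w hw
  funext j
  have h1 := congrFun hw j.succ
  rw [psi_succ] at h1
  exact (mul_eq_zero.mp h1).resolve_right fun h0 => hf ((map_eq_zero _).mp h0)

theorem Th_next (f : Fin (b + 1) → K') (hf : f 0 ≠ 0)
    (h5 : ∀ i0, ∃ D : Derivation K F F, ∀ i, D (algebraMap K' F (f i)) = if i = i0 then 1 else 0)
    (w : Fin b → F) (hw : w ≠ 0) :
    Module.finrank F (Th K' w) + 1 ≤ Module.finrank F (Th K (psi F f w)) := by
  classical
  let g : (Fin (b + 1) → F) →ₗ[F] F :=
    { toFun := fun u => ∑ i, algebraMap K' F (f i) * u i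
      map_add' := by
        intro u u'
        simp only [Pi.add_apply, mul_add, Finset.sum_add_distrib]
      map_smul' := by
        intro c u
        simp only [Pi.smul_apply, smul_eq_mul, RingHom.id_apply, Finset.mul_sum]
        exact Finset.sum_congr rfl fun i _ => by ring }
  have hg : ∀ u, g u = ∑ i, algebraMap K' F (f i) * u i := fun _ => rfl
  have hgpsi : ∀ v : Fin b → F, g (psi F f v) = 0 := by
    intro v
    rw [hg, Fin.sum_univ_succ]
    simp only [psi_zero, psi_succ, mul_neg, Finset.mul_sum]
    rw [neg_add_eq_zero]
    exact Finset.sum_congr rfl fun j _ => by ring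
  have hle : (Th K' w).map (psi F f) ≤ Th K (psi F f w) := by
    rw [Submodule.map_le_iff_le_comap]
    refine Th_le mem_Th fun D => ?_
    have hD : ∀ (s : F) (t : K'), D (s * algebraMap K' F t) = D s * algebraMap K' F t := by
      intro s t
      rw [Derivation.leibniz, Derivation.map_algebraMap, smul_zero, zero_add, smul_eq_mul,
        mul_comm]
    have h1 : psi F f (fun i => D (w i)) = fun i => (D.restrictScalars K) (psi F f w i) := by
      funext i
      refine Fin.cases ?_ (fun j => ?_) i
      · show _ = D (psi F f w 0)
        rw [psi_zero, psi_zero, map_neg, map_sum]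
        simp only [hD]
      · show _ = D (psi F f w j.succ)
        rw [psi_succ, psi_succ, hD]
    rw [Submodule.mem_comap, h1]
    exact der_mem_Th _
  have hpsi0 : psi F f w ≠ 0 := by
    intro h0
    exact hw (psi_inj f hf (by rw [h0, map_zero]))
  obtain ⟨i0, hi0⟩ := Function.ne_iff.mp hpsi0
  obtain ⟨D, hD⟩ := h5 i0
  have hmem : (fun i => D (psi F f w i)) ∈ Th K (psi F f w) := der_mem_Th D
  have hgD : g (fun i => D (psi F f w i)) = - psi F f w i0 := by
    have h1 := congrArg D (hgpsi w)
    rw [hg, map_sum, map_zero] at h1
    simp only [Derivation.leibniz, smul_eq_mul, hD, Finset.sum_add_distrib, mul_ite, mul_one,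
      mul_zero] at h1
    rw [Finset.sum_ite_eq' Finset.univ i0, if_pos (Finset.mem_univ _)] at h1
    rw [hg]
    exact eq_neg_of_add_eq_zero_left h1
  have hlt : (Th K' w).map (psi F f) < Th K (psi F f w) := by
    refine lt_of_le_of_ne hle fun heq => ?_
    rw [← heq] at hmem
    obtain ⟨v, -, hv⟩ := hmem
    have h2 : g (fun i => D (psi F f w i)) = 0 := by
      rw [← hv]
      exact hgpsi v
    rw [hgD, neg_eq_zero] at h2
    exact hi0 h2
  have h3 := Submodule.finrank_lt_finrank_of_lt hlt
  have h4 : Module.finrank F ((Th K' w).map (psi F f)) = Module.finrank F (Th K' w) :=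
    (Submodule.equivMapOfInjective (psi F f) (psi_inj f hf) (Th K' w)).finrank_eq.symm
  omega

end Th

section Lin

variable {K : Type u} [Field K] [CharZero K] {σ : Type} [Fintype σ] {μ : Type} [Fintype μ] {b : ℕ}
  {L : μ → σ → K} {y : σ → K} {κ : ℕ}

/-- [P3b] the new system is good -/
theorem good_nextR {A : Fin (b + 1) → Matrix σ σ K} (hg : GoodR L A y κ) {K' : Type u} [Field K']
    [Algebra K K'] (z : σ → K') (h1 : ∀ m, ln (L m) z = 0)
    (h2 : ∀ i, bf (A i) (cv K' y) z = 0) (h3 : bf (A 0) z z ≠ 0)
    (h4 : Indep2 L A z (cv K' y))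
    (h5 : ∀ c : Fin (b + 1) → K', ∃ D : Derivation K K' K', ∀ i, D (bf (A i) z z) = c i) :
    GoodR (nextL L A y (fun i => bf (A i) z z)) (nextA A (fun i => bf (A i) z z)) z
      (κ + b - 1) where
  symm := by
    intro i l l'
    simp only [nextA, Matrix.of_apply]
    rw [hg.symm i.succ l l', hg.symm 0 l l']
  mem := by
    refine ⟨?_, fun j => ?_⟩
    · rintro (m | j)
      · show ln (cv K' (L m)) z = 0
        rw [ln_cv, h1]
      · show ln (mv (nextA A (fun i => bf (A i) z z) j) (cv K' y)) z = 0
        have e : ∀ i, bf (A i) z (cv K' y) = 0 := fun i => by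
          rw [bf_comm (hg.symm i)]
          exact h2 i
        rw [ln_mv, bf_nextA, cv_cv, e, e]
        simp
    · rw [bf_nextA]
      simp only [Algebra.algebraMap_self, RingHom.id_apply]
      ring
  indep := smooth_next (fun i => bf (A i) z z) h3 z h4
  ker := by
    intro F _ _ w hw
    let _ : Algebra K F := ((algebraMap K' F).comp (algebraMap K K')).toAlgebra
    have _ : IsScalarTower K K' F := IsScalarTower.of_algebraMap_eq fun _ => rfl
    set f : Fin (b + 1) → K' := fun i => bf (A i) z z with hf
    have hb : 1 ≤ b := by
      by_contra h0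
      have h0' : b = 0 := by omega
      subst h0'
      exact hw (funext fun i => i.elim0)
    have hw' : psi F f w ≠ 0 := by
      intro h0
      exact hw (psi_inj f h3 (by rw [h0, map_zero]))
    have hcomb : ∀ x : σ → F, ∑ j, w j • mv (nextA A f j) x = ∑ i, psi F f w i • mv (A i) x := by
      intro x
      rw [Fin.sum_univ_succ]
      simp only [psi_zero, psi_succ, mv_nextA, smul_sub, smul_smul,
        Finset.sum_sub_distrib, neg_smul, Finset.sum_smul]
      abel
    let φ : (σ → F) →ₗ[F] (σ → F) :=
      { toFun := fun x => ∑ i, psi F f w i • mv (A i) x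
        map_add' := by
          intro x x'
          rw [← Finset.sum_add_distrib]
          refine Finset.sum_congr rfl fun i _ => ?_
          rw [mv_add, smul_add]
        map_smul' := by
          intro c x
          rw [RingHom.id_apply, Finset.smul_sum]
          refine Finset.sum_congr rfl fun i _ => ?_
          rw [mv_smul, smul_comm c (psi F f w i)] }
    have hker : Module.finrank F (Ker (nextL L A y f) (nextA A f) w) ≤
        Module.finrank F (Ker L A (psi F f w)) + b := by
      refine finrank_core (Ker (nextL L A y f) (nextA A f) w) (Ker L A (psi F f w))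
        (Submodule.span F (Set.range fun m => cv F (L m)))
        (Submodule.span F (Set.range fun j => cv F (mv (nextA A f j) (cv K' y)))) φ ?_ ?_
        le_rfl ?_
      · rintro x ⟨-, hx⟩
        rw [hcomb] at hx
        refine (Submodule.span_le.mpr ?_) hx
        rintro _ ⟨m | j, rfl⟩
        · apply Submodule.mem_sup_left
          apply Submodule.subset_span
          refine ⟨m, ?_⟩
          show cv F (L m) = cv F (cv K' (L m))
          rw [cv_cv]
        · apply Submodule.mem_sup_right
          apply Submodule.subset_span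
          exact ⟨j, rfl⟩
      · rintro x ⟨hx, -⟩ hφ
        refine ⟨fun m => ?_, hφ⟩
        have h6 : ln (cv K' (L m)) x = 0 := hx (Sum.inl m)
        rw [ln_cv] at h6
        exact h6
      · refine (finrank_range_le_card _).trans ?_
        simp
    have hTh : Module.finrank F (Th K' w) + 1 ≤ Module.finrank F (Th K (psi F f w)) := by
      refine Th_next f h3 (fun i0 => ?_) w hw
      obtain ⟨D, hD⟩ := h5 (fun i => if i = i0 then 1 else 0)
      obtain ⟨D', hD'⟩ := exists_der_ext (K := K) (K' := K') (F := F)
        ((Algebra.linearMap K' F).compDer D)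
      refine ⟨D', fun i => ?_⟩
      rw [hD']
      show algebraMap K' F (D (bf (A i) z z)) = _
      rw [hD]
      split_ifs <;> simp
    have hk := hg.ker F (psi F f w) hw'
    omega
  num := by
    have h6 := hg.num
    have h8 := hg.ker K (fun _ => 1) (by
      intro h0
      exact one_ne_zero (congrFun h0 0))
    have h9 : 0 < Module.finrank K (Th K (fun _ : Fin (b + 1) => (1 : K))) := by
      rw [Module.finrank_pos_iff_exists_ne_zero]
      refine ⟨⟨fun _ => 1, mem_Th⟩, fun h0 => ?_⟩
      have h1 := congrArg Subtype.val h0
      exact one_ne_zero (congrFun h1 0)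
    simp only [Fintype.card_sum, Fintype.card_fin]
    have h7 : (b + 1) ^ 2 = b ^ 2 + 2 * b + 1 := by ring
    omega

end Lin

end Pool.Agent.Work.PQP
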