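import Mathlib
import Pool.Agent.Work.MP_b62148_ag.QP.StepP
import Pool.Agent.Work.MP_b62148_ag.QR.GenR
import Pool.Agent.Work.MP_b62148_ag.QR.NextR

/-!
The induction step for the systems with weighted kernels.
-/

namespace Pool.Agent.Work.PQP

open MvPolynomial

universe u

section Step

variable {K : Type u} [Field K] [CharZero K] {σ : Type} [Fintype σ] {μ : Type} [Fintype μ] {b : ℕ}
  {L : μ → σ → K} {A : Fin (b + 1) → Matrix σ σ K} {y : σ → K} {κ : ℕ}

/-- [P6] the induction step -/
theorem stepR (ih : ∀ {K' : Type u} [Field K'] [CharZero K'] {μ' : Type} [Fintype μ']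
      (L' : μ' → σ → K') (A' : Fin b → Matrix σ σ K') (z : σ → K') (κ' : ℕ),
      GoodR L' A' z κ' → Para L' A')
    (hg : GoodR L A y κ) : Para L A := by
  classical
  obtain ⟨z, hz1, hz2, hz3, hz5⟩ := exists_zR hg
  have hchar : CharZero (FractionRing (MvPolynomial σ K)) :=
    charZero_of_injective_algebraMap (algebraMap K (FractionRing (MvPolynomial σ K))).injective
  have hz4 : AlgebraicIndependent K (fun i => bf (A i) z z) := algInd_of_der _ hz5
  have hf0 : bf (A 0) z z ≠ 0 := by
    intro h
    exact (hz4.ne_zero 0) h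
  have hgn := good_nextR hg z hz1 hz2 hf0 hz3 hz5
  obtain ⟨f, hf⟩ : ∃ f : Fin (b + 1) → FractionRing (MvPolynomial σ K),
    f = fun i => bf (A i) z z := ⟨_, rfl⟩
  rw [← hf] at hgn hz4
  have hff : f 0 ≠ 0 := by rw [hf]; exact hf0
  obtain ⟨m, P', hP', hdom⟩ := ih _ _ z _ hgn
  -- the residual map
  have hY : OnX L A (res (A 0) y P') := res_onX hg.symm hg.mem f hff P' hP'
  obtain ⟨δ, hδ, n, P, hP⟩ := exists_clear (res (A 0) y P')
  have hsmul : (fun l => C δ * res (A 0) y P' l) =
      (C δ : MvPolynomial (Fin m) (FractionRing (MvPolynomial σ K))) • res (A 0) y P' := by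
    funext l
    rfl
  refine ⟨n, P, ⟨fun j => ?_, fun i => ?_⟩, ?_⟩
  · rw [← aeval_lp, hP, hsmul, aeval_lp, ln_smul, hY.1, mul_zero]
  · rw [← aeval_qp, hP, hsmul, aeval_qp, bf_smul_left, bf_smul_right, hY.2, mul_zero, mul_zero]
  · intro H hH F _ _ _ x hx hxs
    obtain ⟨E, i1, i2, η, hη1, hη2, hη3, hη4⟩ := exists_etaR hg x hx hxs
    apply hη4
    obtain ⟨Ω, j1, j2, j3, j4, j5, i, hi⟩ := amalgam _ _ hη3 hz4
    obtain ⟨x', hx'⟩ : ∃ x' : σ → Ω, x' = fun l => i (η l) := ⟨_, rfl⟩
    have hcv : (fun l => i (cv E y l)) = cv Ω y := by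
      funext l
      exact i.commutes (y l)
    have hβ : ∀ j, bf (A j) (cv Ω y) x' = algebraMap _ Ω (f j) := by
      intro j
      rw [← hi, bf_map, hcv, hx']
    have hβ' : ∀ j, bf (A j) x' (cv Ω y) = algebraMap _ Ω (f j) := by
      intro j
      rw [bf_comm (hg.symm j), hβ]
    have hxx : ∀ j, bf (A j) x' x' = 0 := by
      intro j
      have := bf_map i (A j) η η
      rw [hη1.2, map_zero] at this
      rw [hx']
      exact this.symm
    have hxL : ∀ j, ln (L j) x' = 0 := by
      intro j
      have := ln_map i (L j) η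
      rw [hη1.1, map_zero] at this
      rw [hx']
      exact this.symm
    have hδ0 : algebraMap _ Ω δ ≠ 0 := by
      intro h
      exact hδ ((map_eq_zero _).mp h)
    have hβ0 : algebraMap _ Ω (f 0) ≠ 0 := by
      intro h
      exact hff ((map_eq_zero _).mp h)
    have hcharΩ : CharZero Ω := charZero_of_injective_algebraMap (algebraMap K Ω).injective
    obtain ⟨s, hs⟩ := IsAlgClosed.exists_pow_nat_eq
      (-(2 * algebraMap _ Ω (f 0) * algebraMap _ Ω δ)⁻¹) (n := 2) (by norm_num)
    have hne : (2 * algebraMap _ Ω (f 0) * algebraMap _ Ω δ) ≠ 0 :=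
      mul_ne_zero (mul_ne_zero two_ne_zero hβ0) hδ0
    have hs0 : s ≠ 0 := by
      intro h
      rw [h] at hs
      have : (0 : Ω) ^ 2 = 0 := by norm_num
      rw [this] at hs
      exact hne (inv_eq_zero.mp (neg_eq_zero.mp hs.symm))
    -- the polynomial over the extension
    let H' : MvPolynomial σ (FractionRing (MvPolynomial σ K)) :=
      aeval (fun l => C δ * res (A 0) y
        (X : σ → MvPolynomial σ (FractionRing (MvPolynomial σ K))) l) H
    have hH' : ∀ {R : Type u} [CommRing R] [Algebra (FractionRing (MvPolynomial σ K)) R]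
        [Algebra K R] [IsScalarTower K (FractionRing (MvPolynomial σ K)) R] (w : σ → R),
        aeval w H' = aeval (fun l => algebraMap _ R δ * res (A 0) y w l) H := by
      intro R _ _ _ _ w
      have h1 := comp_aeval_apply (fun l => C δ * res (A 0) y
        (X : σ → MvPolynomial σ (FractionRing (MvPolynomial σ K))) l)
        ((aeval w : MvPolynomial σ (FractionRing (MvPolynomial σ K)) →ₐ[_] R).restrictScalars K) H
      refine h1.trans ?_
      congr 2
      funext l
      rw [map_mul, res_map]
      have h2 : ((aeval w : MvPolynomial σ (FractionRing (MvPolynomial σ K)) →ₐ[_]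
          R).restrictScalars K) (C δ) = algebraMap _ R δ := by
        show aeval w (C δ) = _
        rw [aeval_C]
      have h3 : (fun l => ((aeval w : MvPolynomial σ (FractionRing (MvPolynomial σ K)) →ₐ[_]
          R).restrictScalars K) (X l)) = w := by
        funext l
        show aeval w (X l) = _
        rw [aeval_X]
      rw [h2, h3]
    have hPH : aeval P' H' = 0 := by
      rw [hH']
      exact (hP H).mp hH
    have hfin := hdom H' hPH Ω (s • x') (by
      constructor
      · rintro (j | j)
        · show ln (cv _ (L j)) (s • x') = 0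
          rw [ln_cvR, ln_smul, hxL, mul_zero]
        · show ln (mv (nextA A f j) (cv _ y)) (s • x') = 0
          rw [ln_mvR, bf_nextAR, bf_smul_left, bf_smul_left, hβ', hβ']
          ring
      · intro j
        rw [bf_nextAR, bf_smul_left, bf_smul_left, bf_smul_right, bf_smul_right, hxx, hxx]
        ring) (by
      refine smooth_next f hff (s • x') ?_
      refine Indep2.smul ?_ hs0
      rw [hx']
      exact hη2.map i)
    rw [hH'] at hfin
    have hvec : (fun l => algebraMap _ Ω δ * res (A 0) y (s • x') l) = x' := by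
      have h0 : bf (A 0) (s • x') (s • x') = 0 := by
        rw [bf_smul_left, bf_smul_right, hxx]
        ring
      rw [res_self _ _ _ h0]
      funext l
      simp only [Pi.smul_apply, smul_eq_mul, bf_smul_right, hβ]
      have h1 : algebraMap _ Ω δ * (-(2 * (s * algebraMap _ Ω (f 0))) * (s * x' l)) =
          -(s ^ 2 * (2 * algebraMap _ Ω (f 0) * algebraMap _ Ω δ)) * x' l := by ring
      rw [h1, hs]
      linear_combination x' l * inv_mul_cancel₀ hne
    rw [hvec, hx'] at hfin
    have h9 := comp_aeval_apply η i H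
    rw [hfin] at h9
    exact (map_eq_zero i).mp h9

end Step

end Pool.Agent.Work.PQP
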