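import Mathlib
import Pool.Agent.Work.MP_b62148_ag.QR.StepR
import Pool.Agent.Work.MP_b62148_ag.QP.BaseP

/-!
The main theorem for the systems with weighted kernels.
-/

namespace Pool.Agent.Work.PQP

open MvPolynomial

universe u

/-- no quadrics -/
theorem baseR {K : Type u} [Field K] [CharZero K] {σ : Type} [Fintype σ] {μ : Type} [Fintype μ]
    {L : μ → σ → K} {A : Fin 0 → Matrix σ σ K} {y : σ → K} {κ : ℕ} (hg : GoodR L A y κ) :
    Para L A := by
  refine base (y := y) (κ := κ) ⟨hg.symm, hg.mem, hg.indep, ?_, ?_⟩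
  · intro F _ _ w hw
    exact absurd (funext fun i => i.elim0) hw
  · have := hg.num
    omega

/-- the main theorem for good systems -/
theorem mainR {σ : Type} [Fintype σ] (b : ℕ) : ∀ {K : Type u} [Field K] [CharZero K] {μ : Type}
    [Fintype μ] (L : μ → σ → K) (A : Fin b → Matrix σ σ K) (y : σ → K) (κ : ℕ),
    GoodR L A y κ → Para L A := by
  induction b with
  | zero => exact fun L A y κ h => baseR h
  | succ b ih => exact fun L A y κ h => stepR (fun L' A' z κ' h' => ih L' A' z κ' h') h

end Pool.Agent.Work.PQP
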