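import Mathlib

/-! Extension of a derivation `K' → F` of fields of characteristic zero to a derivation of `F`. -/

set_option autoImplicit false

namespace Pool.Agent.Work.PQP

universe u

open TensorProduct KaehlerDifferential

theorem formallySmooth_charZero (K' F : Type*) [Field K'] [Field F] [Algebra K' F] [CharZero K'] :
    Algebra.FormallySmooth K' F := by
  obtain ⟨s, hs⟩ := exists_isTranscendenceBasis K' F
  have h1 : Algebra.IsAlgebraic (IntermediateField.adjoin K' (Set.range ((↑) : s → F))) F :=
    hs.isAlgebraic_field
  have h2 : Algebra.IsSeparable (IntermediateField.adjoin K' (Set.range ((↑) : s → F))) F :=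
    inferInstance
  exact Algebra.FormallySmooth.of_algebraicIndependent_of_isSeparable hs.1

/-- A `K`-derivation of a field `K'` with values in an extension field `F` extends to a
`K`-derivation of `F` (characteristic zero). -/
theorem exists_der_ext {K K' F : Type*} [Field K] [Field K'] [Field F] [CharZero K]
    [Algebra K K'] [Algebra K' F] [Algebra K F] [IsScalarTower K K' F]
    (d : Derivation K K' F) :
    ∃ D : Derivation K F F, ∀ s, D (algebraMap K' F s) = d s := by
  have : CharZero K' := charZero_of_injective_algebraMap (algebraMap K K').injective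
  have := formallySmooth_charZero K' F
  have hinj : Function.Injective (mapBaseChange K K' F) := by
    rw [injective_iff_map_eq_zero]
    intro x hx
    obtain ⟨x, rfl⟩ := (Algebra.H1Cotangent.exact_δ_mapBaseChange K K' F x).mp hx
    have := Algebra.FormallySmooth.subsingleton_h1Cotangent (R := K') (A := F)
    rw [Subsingleton.elim x 0, map_zero]
  obtain ⟨g, hg⟩ := LinearMap.exists_leftInverse_of_injective (mapBaseChange K K' F)
    (LinearMap.ker_eq_bot.mpr hinj)
  let φ : F ⊗[K'] Ω[K'⁄K] →ₗ[F] F := (d.liftKaehlerDifferential).liftBaseChange F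
  refine ⟨(φ ∘ₗ g).compDer (KaehlerDifferential.D K F), fun s => ?_⟩
  have h1 : KaehlerDifferential.D K F (algebraMap K' F s)
      = mapBaseChange K K' F (1 ⊗ₜ KaehlerDifferential.D K K' s) := by
    rw [mapBaseChange_tmul, one_smul, map_D]
  have h2 : g (KaehlerDifferential.D K F (algebraMap K' F s))
      = 1 ⊗ₜ KaehlerDifferential.D K K' s := by
    rw [h1]
    exact LinearMap.congr_fun hg _
  show φ (g (KaehlerDifferential.D K F (algebraMap K' F s))) = d s
  rw [h2]
  simp [φ]

end Pool.Agent.Work.PQP
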